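import Pool.Agent.Helper54_OD.Low

/-! Sharpened lower bound for the number of colours: `q ≥ 2 e d - 50 √d`. -/

set_option autoImplicit false

open MeasureTheory ProbabilityTheory Set

namespace Pool.Agent.OD.H94

open Pool.Agent.OD.H54L

variable {d q : ℕ}

/-- The neighbours of `v`. -/
def nb (v : Fin d → ℤ) (t : Fin d × Bool) : Fin d → ℤ :=
  v + Pi.single t.1 (if t.2 then 1 else -1)

lemma l1_nb (u v : Fin d → ℤ) (t : Fin d × Bool) :
    ∑ i, |u i - nb v t i| = ∑ i, |u i - v i| +
      (|u t.1 - v t.1 - (if t.2 then 1 else -1)| - |u t.1 - v t.1|) := by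
  classical
  rw [← Finset.add_sum_erase Finset.univ (fun i => |u i - nb v t i|) (Finset.mem_univ t.1),
    ← Finset.add_sum_erase Finset.univ (fun i => |u i - v i|) (Finset.mem_univ t.1)]
  have h1 : ∑ i ∈ Finset.univ.erase t.1, |u i - nb v t i| =
      ∑ i ∈ Finset.univ.erase t.1, |u i - v i| := by
    refine Finset.sum_congr rfl fun i hi => ?_
    have hne : i ≠ t.1 := Finset.ne_of_mem_erase hi
    simp [nb, hne]
  have h2 : nb v t t.1 = v t.1 + (if t.2 then 1 else -1) := by simp [nb]
  rw [h1, h2]
  have h3 : u t.1 - (v t.1 + (if t.2 then 1 else -1)) =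
      u t.1 - v t.1 - (if t.2 then 1 else -1) := by ring
  rw [h3]
  ring

lemma adj_nb (v : Fin d → ℤ) (t : Fin d × Bool) : LAdj v (nb v t) := by
  unfold LAdj
  rw [l1_nb v v t]
  simp only [sub_self, abs_zero, Finset.sum_const_zero, zero_sub, zero_add, sub_zero]
  split_ifs <;> simp

lemma nb_inj (v : Fin d → ℤ) : Function.Injective (nb v) := by
  intro t t' h
  have h1 : ∀ i, (Pi.single t.1 (if t.2 then 1 else -1) : Fin d → ℤ) i =
      (Pi.single t'.1 (if t'.2 then 1 else -1) : Fin d → ℤ) i := by
    intro i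
    have := congrFun h i
    simp only [nb, Pi.add_apply] at this
    linarith
  have h2 : t.1 = t'.1 := by
    by_contra hne
    have h3 := h1 t.1
    rw [Pi.single_eq_same, Pi.single_eq_of_ne hne] at h3
    split_ifs at h3 <;> omega
  have h3 := h1 t.1
  rw [Pi.single_eq_same, h2, Pi.single_eq_same] at h3
  refine Prod.ext h2 ?_
  cases ht : t.2 <;> cases ht' : t'.2 <;> (simp [ht, ht'] at h3 ⊢)

/-- At most two neighbours of `v` are equal or adjacent to `u`, if `u` is different from `v`. -/
lemma common (u v : Fin d → ℤ) (huv : u ≠ v) :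
    (Finset.univ.filter fun t : Fin d × Bool => ∑ i, |u i - nb v t i| ≤ 1).card ≤ 2 := by
  classical
  set S := Finset.univ.filter fun t : Fin d × Bool => ∑ i, |u i - nb v t i| ≤ 1 with hS
  rcases S.eq_empty_or_nonempty with he | ⟨t₀, ht₀⟩
  · rw [he]; simp
  have hpos : 1 ≤ ∑ i, |u i - v i| := by
    by_contra hcon
    have h0 : ∑ i, |u i - v i| = 0 :=
      le_antisymm (by omega) (Finset.sum_nonneg fun i _ => abs_nonneg _)
    apply huv
    funext i
    have := (Finset.sum_eq_zero_iff_of_nonneg fun i _ => abs_nonneg (u i - v i)).1 h0 i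
      (Finset.mem_univ i)
    have h2 := abs_eq_zero.1 this
    omega
  have key : ∀ t ∈ S, (if t.2 then (1 : ℤ) else -1) * (u t.1 - v t.1) ≥ 1 ∧
      ∑ i, |u i - v i| ≤ 2 := by
    intro t ht
    have h1 : ∑ i, |u i - nb v t i| ≤ 1 := (Finset.mem_filter.1 ht).2
    rw [l1_nb] at h1
    set z := u t.1 - v t.1 with hz
    cases h2 : t.2
    · simp only [h2, Bool.false_eq_true, if_false] at h1 ⊢
      rcases le_or_gt z (-1) with h3 | h3
      · refine ⟨by omega, ?_⟩
        have e1 : |z - -1| = -z - 1 := by rw [abs_of_nonpos (by omega)]; ring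
        have e2 : |z| = -z := abs_of_nonpos (by omega)
        rw [e1, e2] at h1
        omega
      · exfalso
        have e1 : |z - -1| = z + 1 := by rw [abs_of_nonneg (by omega)]; ring
        have e2 : |z| = z := abs_of_nonneg (by omega)
        rw [e1, e2] at h1
        omega
    · simp only [h2, if_true] at h1 ⊢
      rcases le_or_gt 1 z with h3 | h3
      · refine ⟨by omega, ?_⟩
        have e1 : |z - 1| = z - 1 := abs_of_nonneg (by omega)
        have e2 : |z| = z := abs_of_nonneg (by omega)
        rw [e1, e2] at h1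
        omega
      · exfalso
        have e1 : |z - 1| = 1 - z := by rw [abs_of_nonpos (by omega)]; ring
        have e2 : |z| = -z := abs_of_nonpos (by omega)
        rw [e1, e2] at h1
        omega
  have hinj : Set.InjOn Prod.fst (S : Set (Fin d × Bool)) := by
    intro t ht t' ht' h
    have h1 := (key t ht).1
    have h2 := (key t' ht').1
    have h : t.1 = t'.1 := h
    rw [← h] at h2
    refine Prod.ext h ?_
    cases ha : t.2 <;> cases hb : t'.2
    · rfl
    · simp only [ha, hb, Bool.false_eq_true, if_false, if_true] at h1 h2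
      omega
    · simp only [ha, hb, Bool.false_eq_true, if_false, if_true] at h1 h2
      omega
    · rfl
  have h1 : S.card ≤ (Finset.univ.filter fun i : Fin d => u i - v i ≠ 0).card := by
    refine Finset.card_le_card_of_injOn Prod.fst (fun t ht => ?_) hinj
    have h2 := (key t ht).1
    rw [Finset.coe_filter]
    refine ⟨Finset.mem_univ _, fun h3 => ?_⟩
    rw [h3, mul_zero] at h2
    omega
  have h2 : ((Finset.univ.filter fun i : Fin d => u i - v i ≠ 0).card : ℤ) ≤
      ∑ i, |u i - v i| := by
    rw [Finset.card_eq_sum_ones, Nat.cast_sum]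
    calc ∑ i ∈ Finset.univ.filter (fun i : Fin d => u i - v i ≠ 0), ((1 : ℕ) : ℤ)
        ≤ ∑ i ∈ Finset.univ.filter (fun i : Fin d => u i - v i ≠ 0), |u i - v i| := by
          refine Finset.sum_le_sum fun i hi => ?_
          have h3 := (Finset.mem_filter.1 hi).2
          have := abs_pos.2 h3
          push_cast
          omega
      _ ≤ ∑ i, |u i - v i| := Finset.sum_le_sum_of_subset_of_nonneg (Finset.subset_univ _)
          fun i _ _ => abs_nonneg _
  have h3 := (key t₀ ht₀).2
  omega

lemma ball_fin (R : ℕ) (v : Fin d → ℤ) :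
    ∃ L : Finset (Fin d → ℤ), ∀ w, (w ≠ v ∧ ∑ i, |v i - w i| ≤ R) ↔ w ∈ L := by
  classical
  refine ⟨(Finset.Icc (fun i => v i - R) (fun i => v i + R)).filter
    (fun w => w ≠ v ∧ ∑ i, |v i - w i| ≤ R), fun w => ?_⟩
  rw [Finset.mem_filter]
  refine ⟨fun h => ⟨?_, h⟩, fun h => h.2⟩
  rw [Finset.mem_Icc]
  have h1 : ∀ i, |v i - w i| ≤ R := fun i =>
    le_trans (Finset.single_le_sum (f := fun i => |v i - w i|) (fun j _ => abs_nonneg _)
      (Finset.mem_univ i)) h.2
  exact ⟨fun i => by have := abs_le.1 (h1 i); simp only; omega,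
    fun i => by have := abs_le.1 (h1 i); simp only; omega⟩

/-- Adding `v` to `L` decreases the probability by the factor `b`, if the ball of radius `R`
around `v` is filled up to the neighbourhoods of few sites `A`. -/
def Cl (μ : Measure ((Fin d → ℤ) → Fin q)) (c : Fin q) (K R : ℕ) (b : ℝ) : Prop :=
  ∀ (A L : Finset (Fin d → ℤ)) (v : Fin d → ℤ), v ∉ L → v ∉ A → Disjoint A L →
    A.card + R ≤ K →
    (∀ w, w ≠ v → ∑ i, |v i - w i| ≤ R → w ∈ L ∨ w ∈ A ∨ ∃ u ∈ A, LAdj u w) →
    ZZ μ c (insert v L) ≤ b * ZZ μ c L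

open Classical in
lemma cl_step (μ : Measure ((Fin d → ℤ) → Fin q)) (hμ : IsOneDep d q μ) (c : Fin q)
    (K R m : ℕ) (hm : m + 2 * K ≤ 2 * d + 2) (b : ℝ) (hb : 0 < b) (hb1 : b ≤ 1)
    (h : Cl μ c K R b) : Cl μ c K (R + 1) (1 - μ.real {x | x 0 = c} / b ^ m) := by
  intro A L v hvL hvA hAL hcard hfull
  have := hμ.prob
  set p := μ.real {x | x 0 = c} with hp
  have hp0 : 0 ≤ p := measureReal_nonneg
  set L' := L.filter fun w => ¬ LAdj v w with hL'
  set W := L.filter fun w => LAdj v w with hW
  have hLW : L' ∪ W = L := by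
    ext w
    simp only [hL', hW, Finset.mem_union, Finset.mem_filter]
    tauto
  -- add the neighbours one by one
  have hadd : ∀ S ⊆ W, ZZ μ c (L' ∪ S) ≤ b ^ S.card * ZZ μ c L' := by
    intro S
    induction S using Finset.induction_on with
    | empty => intro _; simp
    | insert w S hw ih =>
      intro hS
      have hwW : w ∈ W := hS (Finset.mem_insert_self w S)
      have hSW : S ⊆ W := (Finset.subset_insert w S).trans hS
      have hwL : w ∈ L := (Finset.mem_filter.1 hwW).1
      have hvw : LAdj v w := (Finset.mem_filter.1 hwW).2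
      have hsub : L' ∪ S ⊆ L := Finset.union_subset (Finset.filter_subset _ _)
        (hSW.trans (Finset.filter_subset _ _))
      have e1 : L' ∪ insert w S = insert w (L' ∪ S) := by
        rw [Finset.union_insert]
      rw [e1, Finset.card_insert_of_notMem hw, pow_succ]
      have h1 := h (insert v A) (L' ∪ S) w (by
          rw [Finset.mem_union]
          rintro (h2 | h2)
          · exact (Finset.mem_filter.1 h2).2 hvw
          · exact hw h2)
        (by
          rw [Finset.mem_insert]
          rintro (h2 | h2)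
          · exact hvL (h2 ▸ hwL)
          · exact (Finset.disjoint_left.1 hAL) h2 hwL)
        (by
          rw [Finset.disjoint_left]
          intro u hu hu'
          rw [Finset.mem_insert] at hu
          rcases hu with rfl | hu
          · exact hvL (hsub hu')
          · exact (Finset.disjoint_left.1 hAL) hu (hsub hu'))
        (by
          rw [Finset.card_insert_of_notMem hvA]
          omega)
        (by
          intro w' hw' hd'
          by_cases hv' : w' = v
          · exact Or.inr (Or.inl (by rw [hv']; exact Finset.mem_insert_self v A))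
          have htri : ∑ i, |v i - w' i| ≤ ((R + 1 : ℕ) : ℤ) := by
            have h3 : ∑ i, |v i - w' i| ≤ ∑ i, |v i - w i| + ∑ i, |w i - w' i| := by
              rw [← Finset.sum_add_distrib]
              refine Finset.sum_le_sum fun i _ => ?_
              calc |v i - w' i| = |(v i - w i) + (w i - w' i)| := by ring_nf
                _ ≤ _ := abs_add_le _ _
            have h4 : ∑ i, |v i - w i| = 1 := hvw
            rw [h4] at h3
            push_cast
            omega
          rcases hfull w' hv' htri with h3 | h3 | ⟨u, hu, h3⟩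
          · by_cases h4 : LAdj v w'
            · exact Or.inr (Or.inr ⟨v, Finset.mem_insert_self v A, h4⟩)
            · exact Or.inl (Finset.mem_union_left _ (Finset.mem_filter.2 ⟨h3, h4⟩))
          · exact Or.inr (Or.inl (Finset.mem_insert_of_mem h3))
          · exact Or.inr (Or.inr ⟨u, Finset.mem_insert_of_mem hu, h3⟩))
      calc ZZ μ c (insert w (L' ∪ S)) ≤ b * ZZ μ c (L' ∪ S) := h1
        _ ≤ b * (b ^ S.card * ZZ μ c L') := mul_le_mul_of_nonneg_left (ih hSW) hb.le
        _ = b ^ S.card * b * ZZ μ c L' := by ring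
  have h1 := hadd W (Finset.Subset.refl W)
  rw [hLW] at h1
  -- many neighbours
  have hWm : m ≤ W.card := by
    set G := Finset.univ.filter fun t : Fin d × Bool => nb v t ∈ L with hG
    have h2 : G.card ≤ W.card := by
      refine Finset.card_le_card_of_injOn (nb v) (fun t ht => ?_) ((nb_inj v).injOn)
      have h3 : nb v t ∈ L := (Finset.mem_filter.1 ht).2
      exact Finset.mem_coe.2 (Finset.mem_filter.2 ⟨h3, adj_nb v t⟩)
    have h3 : (Finset.univ.filter fun t : Fin d × Bool => ¬ nb v t ∈ L).card ≤ 2 * A.card := by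
      have h4 : (Finset.univ.filter fun t : Fin d × Bool => ¬ nb v t ∈ L) ⊆
          A.biUnion fun u => Finset.univ.filter
            fun t : Fin d × Bool => ∑ i, |u i - nb v t i| ≤ 1 := by
        intro t ht
        have h5 : nb v t ∉ L := (Finset.mem_filter.1 ht).2
        have h6 : LAdj v (nb v t) := adj_nb v t
        have h7 : nb v t ≠ v := by
          intro h8
          rw [h8] at h6
          unfold LAdj at h6
          simp at h6
        rw [Finset.mem_biUnion]
        rcases hfull (nb v t) h7 (by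
            have h8 : ∑ i, |v i - nb v t i| = 1 := h6
            rw [h8]; push_cast; omega) with h8 | h8 | ⟨u, hu, h8⟩
        · exact absurd h8 h5
        · refine ⟨nb v t, h8, Finset.mem_filter.2 ⟨Finset.mem_univ _, ?_⟩⟩
          simp
        · refine ⟨u, hu, Finset.mem_filter.2 ⟨Finset.mem_univ _, ?_⟩⟩
          exact le_of_eq h8
      refine (Finset.card_le_card h4).trans (Finset.card_biUnion_le.trans ?_)
      calc ∑ u ∈ A, (Finset.univ.filter
            fun t : Fin d × Bool => ∑ i, |u i - nb v t i| ≤ 1).card ≤ ∑ _u ∈ A, 2 := by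
            refine Finset.sum_le_sum fun u hu => common u v fun h5 => ?_
            exact hvA (h5 ▸ hu)
        _ = 2 * A.card := by rw [Finset.sum_const, smul_eq_mul, mul_comm]
    have h4 : G.card + (Finset.univ.filter fun t : Fin d × Bool => ¬ nb v t ∈ L).card =
        (Finset.univ : Finset (Fin d × Bool)).card :=
      Finset.card_filter_add_card_filter_not (s := (Finset.univ : Finset (Fin d × Bool)))
        (fun t => nb v t ∈ L)
    have h5 : (Finset.univ : Finset (Fin d × Bool)).card = 2 * d := by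
      rw [Finset.card_univ, Fintype.card_prod, Fintype.card_fin, Fintype.card_bool, mul_comm]
    rw [h5] at h4
    omega
  have hZ0 : 0 ≤ ZZ μ c L' := measureReal_nonneg
  have h2 : ZZ μ c L ≤ b ^ m * ZZ μ c L' :=
    h1.trans (mul_le_mul_of_nonneg_right (pow_le_pow_of_le_one hb.le hb1 hWm) hZ0)
  rw [ZZ_rec μ hμ c L v hvL]
  have hbm : 0 < b ^ m := pow_pos hb m
  have h3 : ZZ μ c L / b ^ m ≤ ZZ μ c L' := by
    rw [div_le_iff₀ hbm]; linarith
  have h4 : p * (ZZ μ c L / b ^ m) ≤ p * ZZ μ c L' := mul_le_mul_of_nonneg_left h3 hp0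
  have e3 : (1 - p / b ^ m) * ZZ μ c L = ZZ μ c L - p * (ZZ μ c L / b ^ m) := by ring
  rw [e3]
  linarith

/-- The numerical iteration. -/
noncomputable def be (x : ℝ) : ℕ → ℝ
  | 0 => 0
  | n + 1 => x * Real.exp (be x n)

lemma be_bound (μ : Measure ((Fin d → ℤ) → Fin q)) (hμ : IsOneDep d q μ) (c : Fin q)
    (hd : 1 ≤ d) (hp : 0 < μ.real {x | x 0 = c}) (K m : ℕ) (hm1 : 1 ≤ m)
    (hm : m + 2 * K ≤ 2 * d + 2) : be (m * μ.real {x | x 0 = c}) K < m := by
  classical
  have := hμ.prob
  set p := μ.real {x | x 0 = c} with hpdef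
  have hm0 : (0 : ℝ) < m := by exact_mod_cast hm1
  have key : ∀ R ≤ K, ∃ b : ℝ, 0 < b ∧ b ≤ 1 ∧ be (m * p) R ≤ m * (1 - b) ∧ Cl μ c K R b := by
    intro R
    induction R with
    | zero =>
      intro _
      refine ⟨1, one_pos, le_rfl, by simp [be], ?_⟩
      intro A L v _ _ _ _ _
      rw [one_mul]
      exact ZZ_anti μ c _ _ (Finset.subset_insert v L)
    | succ R ih =>
      intro hR
      obtain ⟨b, hb, hb1, hbe, hCl⟩ := ih (by omega)
      have hst := cl_step μ hμ c K R m hm b hb hb1 hCl
      have hbm : 0 < b ^ m := pow_pos hb m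
      refine ⟨1 - p / b ^ m, ?_, ?_, ?_, hst⟩
      · obtain ⟨L, hL⟩ := ball_fin (R + 1) (0 : Fin d → ℤ)
        have h0 : (0 : Fin d → ℤ) ∉ L := by
          rw [← hL]
          rintro ⟨h1, -⟩
          exact h1 rfl
        have h1 := hst ∅ L 0 h0 (by simp) (by simp) (by simpa using hR)
          (fun w hw hw' => Or.inl ((hL w).1 ⟨hw, hw'⟩))
        have h2 := ZZ_pos μ hμ c hd hp (insert 0 L)
        have h3 := ZZ_pos μ hμ c hd hp L
        by_contra hneg
        push Not at hneg
        have : (1 - p / b ^ m) * ZZ μ c L ≤ 0 := mul_nonpos_of_nonpos_of_nonneg hneg h3.le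
        linarith
      · have : 0 ≤ p / b ^ m := by positivity
        linarith
      · have h1 : b ^ m ≤ Real.exp (-(m * (1 - b))) := by
          have h2 : b ≤ Real.exp (-(1 - b)) := by
            have := Real.add_one_le_exp (-(1 - b))
            linarith
          calc b ^ m ≤ Real.exp (-(1 - b)) ^ m := pow_le_pow_left₀ hb.le h2 m
            _ = Real.exp (-(m * (1 - b))) := by
              rw [← Real.exp_nat_mul]; ring_nf
        have h3 : Real.exp (m * (1 - b)) ≤ (b ^ m)⁻¹ := by
          rw [Real.exp_neg] at h1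
          rw [le_inv_comm₀ (Real.exp_pos _) hbm]
          exact h1
        have h4 : be (m * p) (R + 1) = m * p * Real.exp (be (m * p) R) := rfl
        rw [h4]
        have h5 : Real.exp (be (m * p) R) ≤ (b ^ m)⁻¹ := (Real.exp_le_exp.2 hbe).trans h3
        have h6 : (m : ℝ) * (1 - (1 - p / b ^ m)) = m * p * (b ^ m)⁻¹ := by
          rw [div_eq_mul_inv]; ring
        rw [h6]
        exact mul_le_mul_of_nonneg_left h5 (by positivity)
  obtain ⟨b, hb, _, hbe, -⟩ := key K le_rfl
  nlinarith

lemma exp_ge (y : ℝ) : y ≤ Real.exp (y - 1) := by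
  have := Real.add_one_le_exp (y - 1)
  linarith

lemma two_pow_ge (n : ℕ) : n ^ 2 ≤ 2 * 2 ^ n := by
  induction n with
  | zero => norm_num
  | succ n ih =>
    rcases Nat.lt_or_ge n 3 with h | h
    · interval_cases n <;> norm_num
    · rw [pow_succ 2 n]
      nlinarith

/-- Growth of the iteration above the critical value. -/
lemma be_grow {x ε : ℝ} (hε : 0 < ε) (hx : (1 + ε) / Real.exp 1 ≤ x) :
    (∀ n : ℕ, n * (ε / Real.exp 1) ≤ be x n) ∧
      ∀ n : ℕ, 4 ≤ be x n → ∀ s : ℕ, 4 * 2 ^ s ≤ be x (n + s) := by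
  have he := Real.exp_pos 1
  have hx0 : 0 < x := lt_of_lt_of_le (by positivity) hx
  have hnn : ∀ n, 0 ≤ be x n := by
    intro n
    cases n with
    | zero => simp [be]
    | succ n => exact (mul_pos hx0 (Real.exp_pos _)).le
  have hstep : ∀ n, (1 + ε) * Real.exp (be x n - 1) ≤ be x (n + 1) := by
    intro n
    have h1 : be x (n + 1) = x * Real.exp (be x n) := rfl
    rw [h1, Real.exp_sub]
    have h2 : (1 + ε) * (Real.exp (be x n) / Real.exp 1) =
        (1 + ε) / Real.exp 1 * Real.exp (be x n) := by ring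
    rw [h2]
    exact mul_le_mul_of_nonneg_right hx (Real.exp_pos _).le
  constructor
  · intro n
    induction n with
    | zero => simp [be]
    | succ n ih =>
      have h1 := hstep n
      have h2 := exp_ge (be x n)
      have h3 : 1 / Real.exp 1 ≤ Real.exp (be x n - 1) := by
        rw [Real.exp_sub]
        exact div_le_div_of_nonneg_right (Real.one_le_exp (hnn n)) he.le
      push_cast
      have h4 : ε * (1 / Real.exp 1) ≤ ε * Real.exp (be x n - 1) :=
        mul_le_mul_of_nonneg_left h3 hε.le
      have h5 : ε / Real.exp 1 = ε * (1 / Real.exp 1) := by ring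
      rw [h5] at ih ⊢
      nlinarith
  · intro n hn s
    induction s with
    | zero => simpa using hn
    | succ s ih =>
      have h1 := hstep (n + s)
      have hy : 4 ≤ be x (n + s) := by
        have : (1 : ℝ) ≤ 2 ^ s := one_le_pow₀ one_le_two
        linarith
      have h2 : 2 * be x (n + s) ≤ Real.exp (be x (n + s) - 1) := by
        have h3 := Real.quadratic_le_exp_of_nonneg (x := be x (n + s) - 1) (by linarith)
        nlinarith
      have h3 := Real.exp_pos (be x (n + s) - 1)
      have h4 : n + (s + 1) = n + s + 1 := by ring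
      rw [h4, pow_succ]
      nlinarith

/-- **The sharpened lower bound.** -/
theorem low2 (d q : ℕ) (μ : Measure ((Fin d → ℤ) → Fin q)) (hd : 1 ≤ d)
    (hμ : IsOneDep d q μ) : 2 * Real.exp 1 * d - 50 * Real.sqrt d ≤ q := by
  classical
  have := hμ.prob
  by_contra hcon
  push Not at hcon
  have hq : 0 < q := by
    by_contra h
    have hq0 : q = 0 := by omega
    subst hq0
    have h1 : (univ : Set ((Fin d → ℤ) → Fin 0)) = ∅ := by
      ext x
      exact (x 0).elim0
    have h2 : μ univ = 1 := measure_univ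
    rw [h1] at h2
    simp at h2
  have hsum : ∑ c : Fin q, μ.real {x | x 0 = c} = 1 := by
    have h1 : (univ : Set ((Fin d → ℤ) → Fin q)) = ⋃ c : Fin q, {x | x 0 = c} := by
      ext x; simp
    have h2 : μ.real univ = ∑ c : Fin q, μ.real {x | x 0 = c} := by
      rw [h1, measureReal_iUnion_fintype]
      · intro c c' hcc
        rw [Function.onFun, Set.disjoint_left]
        intro x hx hx'
        exact hcc (Eq.trans (Eq.symm hx) hx')
      · exact fun c => meas_eq c 0
    rw [← h2]
    simp
  have hq' : (0 : ℝ) < q := by exact_mod_cast hq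
  obtain ⟨c, hc⟩ : ∃ c : Fin q, 1 / (q : ℝ) ≤ μ.real {x | x 0 = c} := by
    by_contra hcon
    push Not at hcon
    have hne : (Finset.univ : Finset (Fin q)).Nonempty := ⟨⟨0, hq⟩, Finset.mem_univ _⟩
    have h1 := Finset.sum_lt_sum_of_nonempty hne fun c _ => hcon c
    rw [hsum, Finset.sum_const, Finset.card_univ, Fintype.card_fin, nsmul_eq_mul] at h1
    rw [mul_one_div_cancel hq'.ne'] at h1
    exact lt_irrefl _ h1
  set p := μ.real {x | x 0 = c} with hp
  have hp0 : 0 < p := lt_of_lt_of_le (by positivity) hc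
  set y : ℝ := Real.sqrt d with hy
  have hy2 : y ^ 2 = d := Real.sq_sqrt (Nat.cast_nonneg d)
  have hy0 : 0 ≤ y := Real.sqrt_nonneg _
  set e : ℝ := Real.exp 1 with he
  have he1 : 2.7182818283 < e := Real.exp_one_gt_d9
  have he2 : e < 2.7182818286 := Real.exp_one_lt_d9
  have hqy : (q : ℝ) < 2 * e * y ^ 2 - 50 * y := by rw [hy2]; exact hcon
  -- `y` is large
  have hybig : 9 < y := by
    by_contra h
    push Not at h
    have : 2 * e * y ^ 2 - 50 * y ≤ 0 := by
      have h1 : y * (2 * e * y - 50) ≤ 0 := by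
        refine mul_nonpos_of_nonneg_of_nonpos hy0 ?_
        nlinarith
      nlinarith
    linarith
  -- the parameters
  set ε : ℝ := 3 / y with hεdef
  have hy1 : 0 < y := by linarith
  have hε : 0 < ε := by positivity
  set R₁ : ℕ := ⌈4 * e / 3 * y⌉₊ with hR₁
  set s : ℕ := ⌈y⌉₊ with hs
  have hR1a : 4 * e / 3 * y ≤ R₁ := Nat.le_ceil _
  have hR1b : (R₁ : ℝ) < 4 * e / 3 * y + 1 := Nat.ceil_lt_add_one (by positivity)
  have hsa : y ≤ s := Nat.le_ceil _
  have hsb : (s : ℝ) < y + 1 := Nat.ceil_lt_add_one hy0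
  set K : ℕ := R₁ + s with hK
  have hKr : (K : ℝ) < (4 * e / 3 + 1) * y + 2 := by
    rw [hK]; push_cast; linarith
  have hKd : K ≤ d := by
    have h1 : (K : ℝ) ≤ d := by
      rw [← hy2]
      nlinarith
    exact_mod_cast h1
  set m : ℕ := 2 * d + 2 - 2 * K with hm
  have hm2 : m + 2 * K = 2 * d + 2 := by omega
  have hm1 : 1 ≤ m := by omega
  have hmr : (m : ℝ) = 2 * d + 2 - 2 * K := by
    have : ((m + 2 * K : ℕ) : ℝ) = ((2 * d + 2 : ℕ) : ℝ) := by rw [hm2]
    push_cast at this
    linarith
  have hb := be_bound μ hμ c hd hp0 K m hm1 hm2.le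
  -- the parameter is above the critical value
  have hx : (1 + ε) / Real.exp 1 ≤ m * p := by
    have h1 : (m : ℝ) / q ≤ m * p := by
      have : (m : ℝ) / q = m * (1 / q) := by ring
      rw [this]
      exact mul_le_mul_of_nonneg_left hc (Nat.cast_nonneg m)
    refine le_trans ?_ h1
    rw [div_le_div_iff₀ (Real.exp_pos 1) hq']
    have h2 : (1 + ε) * q ≤ (1 + ε) * (2 * e * y ^ 2 - 50 * y) :=
      mul_le_mul_of_nonneg_left hqy.le (by positivity)
    have h3 : (1 + ε) * (2 * e * y ^ 2 - 50 * y) =
        2 * e * y ^ 2 + (6 * e - 50) * y - 150 := by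
      rw [hεdef]
      field_simp
      ring
    refine h2.trans ?_
    rw [h3, hmr, ← hy2]
    change _ ≤ (2 * y ^ 2 + 2 - 2 * (K : ℝ)) * e
    nlinarith
  obtain ⟨hg1, hg2⟩ := be_grow hε hx
  have h4 : 4 ≤ be (m * p) R₁ := by
    refine le_trans ?_ (hg1 R₁)
    have h5 : 4 * e / 3 * y * (ε / Real.exp 1) = 4 := by
      rw [hεdef]
      change 4 * e / 3 * y * (3 / y / e) = 4
      have he0 : e ≠ 0 := by positivity
      field_simp
    rw [← h5]
    exact mul_le_mul_of_nonneg_right hR1a (by positivity)
  have h5 := hg2 R₁ h4 s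
  have h6 : (m : ℝ) ≤ 4 * 2 ^ s := by
    have h7 := two_pow_ge s
    have h8 : ((s : ℝ)) ^ 2 ≤ 2 * 2 ^ s := by exact_mod_cast h7
    have h9 : (d : ℝ) ≤ (s : ℝ) ^ 2 := by
      rw [← hy2]
      exact pow_le_pow_left₀ hy0 hsa 2
    have h10 : (1 : ℝ) ≤ s := by linarith
    have h11 : (1 : ℝ) ≤ K := by
      rw [hK]; push_cast
      have : (0 : ℝ) ≤ R₁ := Nat.cast_nonneg _
      linarith
    rw [hmr]
    linarith
  linarith

end Pool.Agent.OD.H94
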